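import Mathlib

/-!
# MP_a04191_co: middle face numbers of flag weak pseudomanifolds

We prove Q1 for `r = 2`: flag weak 3-pseudomanifolds on `n` vertices have `o(n^3)` triangles.
More generally, in every dimension `d - 1 ≥ 2`, a flag weak `(d-1)`-pseudomanifold on `n` vertices
has `o(n^(d-1))` ridges (faces with `d - 1` vertices) and `o(n^(d-1))` facets.
-/

open Finset Fintype

namespace Pool.Agent.Results.MP_a04191_co.DimensionThree

/-- The clique complex of `G` is a weak `(d-1)`-pseudomanifold: every maximal clique has exactly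
`d` vertices, and the common neighbourhood of every clique with `d - 1` vertices consists of two
non-adjacent vertices. -/
structure FlagWeakPM {V : Type} (G : SimpleGraph V) (d : ℕ) : Prop where
  pure : ∀ s : Finset V, Maximal (fun t : Finset V => G.IsClique (t : Set V)) s → s.card = d
  ridge : ∀ s : Finset V, G.IsNClique (d - 1) s →
    ∃ x y, x ≠ y ∧ ¬ G.Adj x y ∧ ∀ v, (∀ u ∈ s, G.Adj u v) ↔ v = x ∨ v = y

/-- `f_i` of the clique complex of `G`: the number of cliques with `i + 1` vertices. -/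
noncomputable def f {V : Type} (G : SimpleGraph V) (i : ℕ) : ℕ :=
  Nat.card {s : Finset V // G.IsNClique (i + 1) s}

theorem f_eq {V : Type} [Fintype V] [DecidableEq V] (G : SimpleGraph V) [DecidableRel G.Adj]
    (i : ℕ) : f G i = (G.cliqueFinset (i + 1)).card := by
  unfold f
  rw [Nat.card_eq_fintype_card, Fintype.card_subtype]
  congr 1

/-- Ordered adjacent pairs. -/
noncomputable def D {V : Type} [Fintype V] (G : SimpleGraph V) : Finset (V × V) := by
  classical exact Finset.univ.filter (fun p => G.Adj p.1 p.2)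

theorem mem_D {V : Type} [Fintype V] (G : SimpleGraph V) (p : V × V) :
    p ∈ D G ↔ G.Adj p.1 p.2 := by
  classical
  unfold D
  simp

/-- Common neighbours. -/
noncomputable def CN {V : Type} [Fintype V] (G : SimpleGraph V) (x y : V) : Finset V := by
  classical exact Finset.univ.filter (fun z => G.Adj x z ∧ G.Adj y z)

theorem mem_CN {V : Type} [Fintype V] (G : SimpleGraph V) (x y z : V) :
    z ∈ CN G x y ↔ G.Adj x z ∧ G.Adj y z := by
  classical
  unfold CN
  simp

theorem card_D_le_edges {V : Type} [Fintype V] [DecidableEq V] (G : SimpleGraph V)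
    [DecidableRel G.Adj] : (D G).card ≤ 2 * G.edgeFinset.card := by
  rw [← G.dart_card_eq_twice_card_edges, ← Finset.card_univ]
  apply Finset.card_le_card_of_surjOn (fun e : G.Dart => e.toProd)
  intro p hp
  have h : G.Adj p.1 p.2 := (mem_D G p).1 hp
  exact ⟨⟨p, h⟩, by simp, rfl⟩

theorem card_D_le {V : Type} [Fintype V] (G : SimpleGraph V) :
    (D G).card ≤ Fintype.card V ^ 2 := by
  calc (D G).card ≤ (Finset.univ : Finset (V × V)).card := Finset.card_le_univ _
    _ = Fintype.card V ^ 2 := by rw [Finset.card_univ, Fintype.card_prod, sq]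

theorem card_triangles_le {V : Type} [Fintype V] [DecidableEq V] (G : SimpleGraph V)
    [DecidableRel G.Adj] (C : ℕ) (hC : ∀ x y, G.Adj x y → (CN G x y).card ≤ C) :
    (G.cliqueFinset 3).card ≤ C * Fintype.card V ^ 2 := by
  have hsub : G.cliqueFinset 3 ⊆ (D G).biUnion
      (fun p => (CN G p.1 p.2).image (fun z => ({p.1, p.2, z} : Finset V))) := by
    intro s hs
    rw [SimpleGraph.mem_cliqueFinset_iff, SimpleGraph.is3Clique_iff] at hs
    obtain ⟨a, b, c, hab, hac, hbc, rfl⟩ := hs
    rw [Finset.mem_biUnion]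
    refine ⟨(a, b), (mem_D G _).2 hab, ?_⟩
    rw [Finset.mem_image]
    exact ⟨c, (mem_CN G _ _ _).2 ⟨hac, hbc⟩, rfl⟩
  calc (G.cliqueFinset 3).card ≤ _ := Finset.card_le_card hsub
    _ ≤ ∑ p ∈ D G, ((CN G p.1 p.2).image (fun z => ({p.1, p.2, z} : Finset V))).card :=
        Finset.card_biUnion_le
    _ ≤ ∑ p ∈ D G, C := by
        apply Finset.sum_le_sum
        intro p hp
        exact Finset.card_image_le.trans (hC _ _ ((mem_D G p).1 hp))
    _ = (D G).card * C := by rw [Finset.sum_const, smul_eq_mul]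
    _ ≤ Fintype.card V ^ 2 * C := Nat.mul_le_mul_right _ (card_D_le G)
    _ = C * Fintype.card V ^ 2 := by ring

/-- If `H ≤ G` is triangle-free, every edge of `G` is in a triangle and in at most `C` triangles,
then the number of edges of `G` is at most `(1 + 2C)` times the number of edges in `G \ H`. -/
theorem card_D_le_sdiff {V : Type} [Fintype V] [DecidableEq V] (G H : SimpleGraph V) (C : ℕ)
    (hHf : H.CliqueFree 3)
    (h1 : ∀ x y, G.Adj x y → ∃ z, G.Adj x z ∧ G.Adj y z)
    (hC : ∀ x y, G.Adj x y → (CN G x y).card ≤ C) :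
    (D G).card ≤ (1 + 2 * C) * (D (G \ H)).card := by
  set R := D (G \ H) with hR
  have hsub : D G ⊆ R ∪ R.biUnion (fun p => (CN G p.1 p.2).image (fun y => (p.1, y))) ∪
      R.biUnion (fun p => (CN G p.1 p.2).image (fun x => (x, p.1))) := by
    rintro ⟨x, y⟩ hp
    have hxy : G.Adj x y := (mem_D G _).1 hp
    obtain ⟨z, hxz, hyz⟩ := h1 x y hxy
    have hmem : ∀ a b, G.Adj a b → ¬ H.Adj a b → (a, b) ∈ R := by
      intro a b hab hnab
      rw [hR, mem_D]
      exact (SimpleGraph.sdiff_adj G H a b).2 ⟨hab, hnab⟩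
    by_cases hxy' : H.Adj x y
    · by_cases hxz' : H.Adj x z
      · by_cases hyz' : H.Adj y z
        · exfalso
          apply hHf {x, y, z}
          rw [SimpleGraph.is3Clique_triple_iff]
          exact ⟨hxy', hxz', hyz'⟩
        · rw [Finset.mem_union]
          right
          rw [Finset.mem_biUnion]
          refine ⟨(y, z), hmem _ _ hyz hyz', ?_⟩
          rw [Finset.mem_image]
          exact ⟨x, (mem_CN G _ _ _).2 ⟨hxy.symm, hxz.symm⟩, rfl⟩
      · rw [Finset.mem_union, Finset.mem_union]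
        left; right
        rw [Finset.mem_biUnion]
        refine ⟨(x, z), hmem _ _ hxz hxz', ?_⟩
        rw [Finset.mem_image]
        exact ⟨y, (mem_CN G _ _ _).2 ⟨hxy, hyz.symm⟩, rfl⟩
    · rw [Finset.mem_union, Finset.mem_union]
      left; left
      exact hmem _ _ hxy hxy'
  have hb : ∀ (g : V × V → V → V × V), (R.biUnion (fun p => (CN G p.1 p.2).image (g p))).card ≤
      R.card * C := by
    intro g
    calc _ ≤ ∑ p ∈ R, ((CN G p.1 p.2).image (g p)).card := Finset.card_biUnion_le
      _ ≤ ∑ p ∈ R, C := by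
          apply Finset.sum_le_sum
          intro p hp
          have : G.Adj p.1 p.2 := ((SimpleGraph.sdiff_adj G H _ _).1 ((mem_D _ p).1 hp)).1
          exact Finset.card_image_le.trans (hC _ _ this)
      _ = R.card * C := by rw [Finset.sum_const, smul_eq_mul]
  calc (D G).card ≤ _ := Finset.card_le_card hsub
    _ ≤ _ := Finset.card_union_le _ _
    _ ≤ (R.card + R.card * C) + R.card * C := by
        apply Nat.add_le_add
        · exact (Finset.card_union_le _ _).trans (Nat.add_le_add_left (hb (fun p y => (p.1, y))) _)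
        · exact hb (fun p x => (x, p.1))
    _ = (1 + 2 * C) * R.card := by ring

/-- **Key lemma.** Graphs in which every edge is in at least one and at most `C` triangles have
`o(n²)` edges. -/
theorem few_edges (C : ℕ) (β : ℝ) (hβ : 0 < β) : ∃ n₀ : ℕ, ∀ (V : Type) [Fintype V]
    (G : SimpleGraph V), n₀ ≤ Fintype.card V →
    (∀ x y, G.Adj x y → ∃ z, G.Adj x z ∧ G.Adj y z) →
    (∀ x y, G.Adj x y → (CN G x y).card ≤ C) →
    ((D G).card : ℝ) ≤ β * (Fintype.card V : ℝ) ^ 2 := by
  classical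
  set ε : ℝ := β / (2 * (1 + 2 * C)) with hε
  have hεpos : 0 < ε := by positivity
  have hb := SimpleGraph.triangleRemovalBound_pos hεpos
  set b := SimpleGraph.triangleRemovalBound ε with hbdef
  obtain ⟨n₀, hn₀⟩ := exists_nat_gt ((C : ℝ) / b)
  refine ⟨n₀ + 1, fun V _ G hV h1 hC => ?_⟩
  have hn : (n₀ : ℝ) + 1 ≤ Fintype.card V := by exact_mod_cast hV
  set n : ℝ := (Fintype.card V : ℝ) with hndef
  have hnpos : 0 < n := by
    have : (0 : ℝ) ≤ n₀ := Nat.cast_nonneg _
    linarith
  have htri : ((G.cliqueFinset 3).card : ℝ) < b * n ^ 3 := by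
    have h2 : ((G.cliqueFinset 3).card : ℝ) ≤ C * n ^ 2 := by
      rw [hndef]
      exact_mod_cast card_triangles_le G C hC
    have h3 : (C : ℝ) < b * n := by
      rw [div_lt_iff₀ hb] at hn₀
      nlinarith
    calc ((G.cliqueFinset 3).card : ℝ) ≤ C * n ^ 2 := h2
      _ < (b * n) * n ^ 2 := by
          apply mul_lt_mul_of_pos_right h3
          positivity
      _ = b * n ^ 3 := by ring
  obtain ⟨H, hHG, hdec, hlt, hfree⟩ := SimpleGraph.triangle_removal htri
  have h4 := card_D_le_sdiff G H C hfree h1 hC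
  have h5 : (D (G \ H)).card ≤ 2 * (G.edgeFinset.card - H.edgeFinset.card) := by
    refine (card_D_le_edges (G \ H)).trans ?_
    have he : ∀ I : Fintype (G \ H).edgeSet,
        @SimpleGraph.edgeFinset V (G \ H) I = G.edgeFinset \ H.edgeFinset := by
      intro I
      ext e
      rw [Finset.mem_sdiff, SimpleGraph.mem_edgeFinset, SimpleGraph.mem_edgeFinset,
        SimpleGraph.mem_edgeFinset, SimpleGraph.edgeSet_sdiff, Set.mem_sdiff]
    rw [he, Finset.card_sdiff_of_subset]
    exact SimpleGraph.edgeFinset_mono hHG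
  have h6 : H.edgeFinset.card ≤ G.edgeFinset.card :=
    Finset.card_le_card (SimpleGraph.edgeFinset_mono hHG)
  have h7 : ((D (G \ H)).card : ℝ) ≤ 2 * ((G.edgeFinset.card : ℝ) - H.edgeFinset.card) := by
    have : ((D (G \ H)).card : ℝ) ≤ ((2 * (G.edgeFinset.card - H.edgeFinset.card) : ℕ) : ℝ) := by
      exact_mod_cast h5
    rw [Nat.cast_mul, Nat.cast_sub h6] at this
    exact_mod_cast this
  have h8 : ((D G).card : ℝ) ≤ (1 + 2 * C) * (D (G \ H)).card := by exact_mod_cast h4
  have h9 : ((G.edgeFinset.card : ℝ) - H.edgeFinset.card) ≤ ε * n ^ 2 := by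
    have := hlt.le
    rw [Nat.cast_pow] at this
    convert this using 3
  calc ((D G).card : ℝ) ≤ (1 + 2 * C) * (D (G \ H)).card := h8
    _ ≤ (1 + 2 * C) * (2 * (ε * n ^ 2)) := by
        apply mul_le_mul_of_nonneg_left _ (by positivity)
        linarith
    _ = β * n ^ 2 := by
        rw [hε]
        field_simp

/-- The link graph of a set `σ` of vertices. -/
def lk {V : Type} (G : SimpleGraph V) (σ : Finset V) : SimpleGraph V where
  Adj x y := G.Adj x y ∧ ∀ u ∈ σ, G.Adj u x ∧ G.Adj u y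
  symm := ⟨fun _ _ h => ⟨h.1.symm, fun u hu => ⟨(h.2 u hu).2, (h.2 u hu).1⟩⟩⟩
  loopless := ⟨fun x h => G.loopless.irrefl x h.1⟩

theorem lk_clique {V : Type} [DecidableEq V] (G : SimpleGraph V) (k : ℕ) (σ : Finset V)
    (hσ : G.IsNClique k σ) (x y : V) (h : (lk G σ).Adj x y) :
    G.IsNClique (k + 2) (insert x (insert y σ)) := by
  have hy : G.IsNClique (k + 1) (insert y σ) :=
    hσ.insert (fun b hb => ((h.2 b hb).2).symm)
  refine hy.insert (fun b hb => ?_)
  rw [Finset.mem_insert] at hb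
  rcases hb with rfl | hb
  · exact h.1
  · exact ((h.2 b hb).1).symm

theorem lk_props {V : Type} [Fintype V] [DecidableEq V] (G : SimpleGraph V) (d : ℕ) (hd : 3 ≤ d)
    (hG : FlagWeakPM G d) (σ : Finset V) (hσ : G.IsNClique (d - 3) σ) :
    (∀ x y, (lk G σ).Adj x y → ∃ z, (lk G σ).Adj x z ∧ (lk G σ).Adj y z) ∧
    (∀ x y, (lk G σ).Adj x y → (CN (lk G σ) x y).card ≤ 2) := by
  have key : ∀ x y, (lk G σ).Adj x y → ∃ a b, a ≠ b ∧
      ∀ z, ((lk G σ).Adj x z ∧ (lk G σ).Adj y z) ↔ z = a ∨ z = b := by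
    intro x y h
    have hτ := lk_clique G (d - 3) σ hσ x y h
    rw [show d - 3 + 2 = d - 1 by omega] at hτ
    obtain ⟨a, b, hab, -, hv⟩ := hG.ridge _ hτ
    refine ⟨a, b, hab, fun z => ?_⟩
    rw [← hv z]
    constructor
    · rintro ⟨hx, hy⟩ u hu
      rw [Finset.mem_insert, Finset.mem_insert] at hu
      rcases hu with rfl | rfl | hu
      · exact hx.1
      · exact hy.1
      · exact (hx.2 u hu).2
    · intro hu
      refine ⟨⟨hu x (by simp), fun u hu' => ⟨(h.2 u hu').1, hu u (by simp [hu'])⟩⟩,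
        ⟨hu y (by simp), fun u hu' => ⟨(h.2 u hu').2, hu u (by simp [hu'])⟩⟩⟩
  constructor
  · intro x y h
    obtain ⟨a, b, -, hz⟩ := key x y h
    exact ⟨a, (hz a).2 (Or.inl rfl)⟩
  · intro x y h
    obtain ⟨a, b, -, hz⟩ := key x y h
    have : CN (lk G σ) x y ⊆ {a, b} := by
      intro z hz'
      rw [mem_CN] at hz'
      have := (hz z).1 hz'
      simp only [Finset.mem_insert, Finset.mem_singleton]
      exact this
    exact (Finset.card_le_card this).trans Finset.card_le_two

theorem card_cliques_le {V : Type} [Fintype V] [DecidableEq V] (G : SimpleGraph V)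
    [DecidableRel G.Adj] (k : ℕ) : (G.cliqueFinset k).card ≤ Fintype.card V ^ k := by
  have : G.cliqueFinset k ⊆ Finset.powersetCard k Finset.univ := by
    intro s hs
    rw [SimpleGraph.mem_cliqueFinset_iff] at hs
    rw [Finset.mem_powersetCard]
    exact ⟨Finset.subset_univ _, hs.card_eq⟩
  calc (G.cliqueFinset k).card ≤ _ := Finset.card_le_card this
    _ = (Fintype.card V).choose k := by rw [Finset.card_powersetCard, Finset.card_univ]
    _ ≤ Fintype.card V ^ k := Nat.choose_le_pow _ _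

/-- Ridges. -/
theorem ridges (d : ℕ) (hd : 3 ≤ d) (β : ℝ) (hβ : 0 < β) : ∃ n₀ : ℕ, ∀ (V : Type) [Fintype V]
    (G : SimpleGraph V), n₀ ≤ Fintype.card V → FlagWeakPM G d →
    (f G (d - 2) : ℝ) ≤ β * (Fintype.card V : ℝ) ^ (d - 1) := by
  classical
  obtain ⟨n₀, hn₀⟩ := few_edges 2 β hβ
  refine ⟨n₀, fun V _ G hV hG => ?_⟩
  rw [f_eq, show d - 2 + 1 = d - 1 by omega]
  have hsub : G.cliqueFinset (d - 1) ⊆ (G.cliqueFinset (d - 3)).biUnion
      (fun σ => (D (lk G σ)).image (fun p => insert p.1 (insert p.2 σ))) := by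
    intro τ hτ
    rw [SimpleGraph.mem_cliqueFinset_iff] at hτ
    obtain ⟨σ, hστ, hσc⟩ := Finset.exists_subset_card_eq (s := τ) (n := d - 3)
      (by rw [hτ.card_eq]; omega)
    have hσ : G.IsNClique (d - 3) σ := ⟨hτ.isClique.subset (by exact_mod_cast hστ), hσc⟩
    have h2 : (τ \ σ).card = 2 := by
      rw [Finset.card_sdiff_of_subset hστ, hτ.card_eq, hσc]
      omega
    obtain ⟨x, y, hxy, hset⟩ := Finset.card_eq_two.1 h2
    have hx : x ∈ τ \ σ := by rw [hset]; simp
    have hy : y ∈ τ \ σ := by rw [hset]; simp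
    rw [Finset.mem_sdiff] at hx hy
    rw [Finset.mem_biUnion]
    refine ⟨σ, (SimpleGraph.mem_cliqueFinset_iff).2 hσ, ?_⟩
    rw [Finset.mem_image]
    refine ⟨(x, y), ?_, ?_⟩
    · rw [mem_D]
      refine ⟨hτ.isClique (by exact_mod_cast hx.1) (by exact_mod_cast hy.1) hxy, fun u hu => ?_⟩
      have huτ : u ∈ τ := hστ hu
      constructor
      · refine hτ.isClique (by exact_mod_cast huτ) (by exact_mod_cast hx.1) ?_
        rintro rfl
        exact hx.2 hu
      · refine hτ.isClique (by exact_mod_cast huτ) (by exact_mod_cast hy.1) ?_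
        rintro rfl
        exact hy.2 hu
    · have : τ = σ ∪ (τ \ σ) := (Finset.union_sdiff_of_subset hστ).symm
      rw [hset] at this
      rw [this]
      ext v
      simp only [Finset.mem_insert, Finset.mem_union, Finset.mem_singleton]
      tauto
  have hnn : (0 : ℝ) ≤ (Fintype.card V : ℝ) := Nat.cast_nonneg _
  have h1 : ((G.cliqueFinset (d - 1)).card : ℝ) ≤
      ∑ σ ∈ G.cliqueFinset (d - 3), ((D (lk G σ)).card : ℝ) := by
    have : (G.cliqueFinset (d - 1)).card ≤ ∑ σ ∈ G.cliqueFinset (d - 3), (D (lk G σ)).card :=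
      (Finset.card_le_card hsub).trans (Finset.card_biUnion_le.trans
        (Finset.sum_le_sum fun σ _ => Finset.card_image_le))
    exact_mod_cast this
  have h2 : ∑ σ ∈ G.cliqueFinset (d - 3), ((D (lk G σ)).card : ℝ) ≤
      ∑ σ ∈ G.cliqueFinset (d - 3), β * (Fintype.card V : ℝ) ^ 2 := by
    apply Finset.sum_le_sum
    intro σ hσ
    rw [SimpleGraph.mem_cliqueFinset_iff] at hσ
    obtain ⟨p1, p2⟩ := lk_props G d hd hG σ hσ
    exact hn₀ V (lk G σ) hV p1 p2
  have h3 : ((G.cliqueFinset (d - 3)).card : ℝ) ≤ (Fintype.card V : ℝ) ^ (d - 3) := by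
    exact_mod_cast card_cliques_le G (d - 3)
  calc ((G.cliqueFinset (d - 1)).card : ℝ) ≤ _ := h1
    _ ≤ _ := h2
    _ = ((G.cliqueFinset (d - 3)).card : ℝ) * (β * (Fintype.card V : ℝ) ^ 2) := by
        rw [Finset.sum_const, nsmul_eq_mul]
    _ ≤ (Fintype.card V : ℝ) ^ (d - 3) * (β * (Fintype.card V : ℝ) ^ 2) := by
        apply mul_le_mul_of_nonneg_right h3
        positivity
    _ = β * (Fintype.card V : ℝ) ^ (d - 1) := by
        rw [show d - 1 = (d - 3) + 2 by omega, pow_add]
        ring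

/-- Facets versus ridges. -/
theorem facets_le {V : Type} [Fintype V] (G : SimpleGraph V) (d : ℕ) (hd : 3 ≤ d)
    (hG : FlagWeakPM G d) : f G (d - 1) ≤ 2 * f G (d - 2) := by
  classical
  rw [f_eq, f_eq, show d - 2 + 1 = d - 1 by omega, show d - 1 + 1 = d by omega]
  let N : Finset V → Finset V := fun τ => Finset.univ.filter (fun v => ∀ u ∈ τ, G.Adj u v)
  have hN : ∀ τ ∈ G.cliqueFinset (d - 1), (N τ).card ≤ 2 := by
    intro τ hτ
    rw [SimpleGraph.mem_cliqueFinset_iff] at hτ
    obtain ⟨x, y, -, -, hv⟩ := hG.ridge τ hτ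
    have : N τ ⊆ {x, y} := by
      intro v hv'
      have h := (Finset.mem_filter.1 hv').2
      simp only [Finset.mem_insert, Finset.mem_singleton]
      exact (hv v).1 h
    exact (Finset.card_le_card this).trans Finset.card_le_two
  have hsub : G.cliqueFinset d ⊆ (G.cliqueFinset (d - 1)).biUnion
      (fun τ => (N τ).image (fun v => insert v τ)) := by
    intro s hs
    rw [SimpleGraph.mem_cliqueFinset_iff] at hs
    have hne : s.Nonempty := by
      rw [← Finset.card_pos, hs.card_eq]; omega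
    obtain ⟨v, hv⟩ := hne
    rw [Finset.mem_biUnion]
    refine ⟨s.erase v, ?_, ?_⟩
    · rw [SimpleGraph.mem_cliqueFinset_iff]
      refine ⟨hs.isClique.subset (by exact_mod_cast Finset.erase_subset v s), ?_⟩
      rw [Finset.card_erase_of_mem hv, hs.card_eq]
    · rw [Finset.mem_image]
      refine ⟨v, ?_, Finset.insert_erase hv⟩
      rw [Finset.mem_filter]
      refine ⟨Finset.mem_univ _, fun u hu => ?_⟩
      rw [Finset.mem_erase] at hu
      exact hs.isClique (by exact_mod_cast hu.2) (by exact_mod_cast hv) hu.1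
  calc (G.cliqueFinset d).card ≤ _ := Finset.card_le_card hsub
    _ ≤ ∑ τ ∈ G.cliqueFinset (d - 1), ((N τ).image (fun v => insert v τ)).card :=
        Finset.card_biUnion_le
    _ ≤ ∑ τ ∈ G.cliqueFinset (d - 1), 2 :=
        Finset.sum_le_sum fun τ hτ => Finset.card_image_le.trans (hN τ hτ)
    _ = 2 * (G.cliqueFinset (d - 1)).card := by
        rw [Finset.sum_const, smul_eq_mul, mul_comm]

/-- **Q1 for `r = 2`**, and the bounds for ridges and facets in every dimension `d - 1 ≥ 2`. -/
theorem result :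
    (∀ β : ℝ, 0 < β → ∃ n₀ : ℕ, ∀ (V : Type) [Fintype V] (G : SimpleGraph V),
      n₀ ≤ Fintype.card V → FlagWeakPM G 4 →
      (f G 2 : ℝ) ≤ β * (Fintype.card V : ℝ) ^ 3) ∧
    (∀ d : ℕ, 3 ≤ d → ∀ β : ℝ, 0 < β → ∃ n₀ : ℕ, ∀ (V : Type) [Fintype V] (G : SimpleGraph V),
      n₀ ≤ Fintype.card V → FlagWeakPM G d →
      (f G (d - 2) : ℝ) ≤ β * (Fintype.card V : ℝ) ^ (d - 1) ∧
      (f G (d - 1) : ℝ) ≤ β * (Fintype.card V : ℝ) ^ (d - 1)) := by
  constructor
  · intro β hβ
    exact ridges 4 (by norm_num) β hβ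
  · intro d hd β hβ
    obtain ⟨n₀, hn₀⟩ := ridges d hd (β / 2) (by linarith)
    refine ⟨n₀, fun V _ G hV hG => ?_⟩
    have h1 := hn₀ V G hV hG
    have h2 : (f G (d - 1) : ℝ) ≤ 2 * f G (d - 2) := by exact_mod_cast facets_le G d hd hG
    have h3 : (0 : ℝ) ≤ β * (Fintype.card V : ℝ) ^ (d - 1) := by positivity
    constructor
    · linarith
    · linarith

end Pool.Agent.Results.MP_a04191_co.DimensionThree
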